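import Mathlib

set_option autoImplicit false

/-!
From the usual equational form of an automorphic loop (the inner mappings `L_{x,y}`, `R_{x,y}`, `T_x`
are automorphisms) to the form with the whole inner mapping group.
-/

namespace Pool.Agent.H4.FT

open Equiv

variable {Q : Type*}

/-- `h` respects the operation -/
def Au (op : Q → Q → Q) (h : Perm Q) : Prop := ∀ u v, h (op u v) = op (h u) (h v)

theorem Au.mul {op : Q → Q → Q} {g h : Perm Q} (hg : Au op g) (hh : Au op h) : Au op (g * h) := by
  intro u v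
  simp only [Perm.mul_apply]
  rw [hh u v, hg]

theorem Au.inv {op : Q → Q → Q} {h : Perm Q} (hh : Au op h) : Au op h⁻¹ := by
  intro u v
  apply h.injective
  rw [hh]
  simp

theorem Au.one (op : Q → Q → Q) : Au op 1 := fun _ _ => rfl

theorem inn_of_gens [Finite Q] (op : Q → Q → Q) (e : Q) (L R : Q → Perm Q)
    (hL : ∀ x y, L x y = op x y) (hR : ∀ x y, R x y = op y x)
    (he : ∀ x, op e x = x ∧ op x e = x)
    (h1 : ∀ x y u v a b c, op (op x y) a = op x (op y u) → op (op x y) b = op x (op y v) →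
      op (op x y) c = op x (op y (op u v)) → c = op a b)
    (h2 : ∀ x y u v a b c, op a (op x y) = op (op u x) y → op b (op x y) = op (op v x) y →
      op c (op x y) = op (op (op u v) x) y → c = op a b)
    (h3 : ∀ x u v a b c, op x a = op u x → op x b = op v x → op x c = op (op u v) x →
      c = op a b) :
    ∀ g ∈ Subgroup.closure (Set.range L ∪ Set.range R), g e = e → Au op g := by
  have hLi : ∀ a b, op a ((L a)⁻¹ b) = b := by
    intro a b
    rw [← hL]; exact (L a).apply_symm_apply b
  have hRi : ∀ a b, op ((R a)⁻¹ b) a = b := by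
    intro a b
    rw [← hR]; exact (R a).apply_symm_apply b
  have hA1 : ∀ x y, Au op ((L (op x y))⁻¹ * L x * L y) := by
    intro x y u v
    have key : ∀ w, op (op x y) (((L (op x y))⁻¹ * L x * L y) w) = op x (op y w) := by
      intro w
      rw [Perm.mul_apply, Perm.mul_apply, hLi, hL, hL]
    exact h1 x y u v _ _ _ (key u) (key v) (key _)
  have hA2 : ∀ x y, Au op ((R (op x y))⁻¹ * R y * R x) := by
    intro x y u v
    have key : ∀ w, op (((R (op x y))⁻¹ * R y * R x) w) (op x y) = op (op w x) y := by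
      intro w
      rw [Perm.mul_apply, Perm.mul_apply, hRi, hR, hR]
    exact h2 x y u v _ _ _ (key u) (key v) (key _)
  have hA3 : ∀ x, Au op ((L x)⁻¹ * R x) := by
    intro x u v
    have key : ∀ w, op x (((L x)⁻¹ * R x) w) = op w x := by
      intro w
      rw [Perm.mul_apply, hLi, hR]
    exact h3 x u v _ _ _ (key u) (key v) (key _)
  have hS1 : ∀ y g, (∃ x h, Au op h ∧ g = L x * h) → ∃ x h, Au op h ∧ L y * g = L x * h := by
    rintro y g ⟨x, h, hh, rfl⟩
    refine ⟨op y x, ((L (op y x))⁻¹ * L y * L x) * h, (hA1 y x).mul hh, ?_⟩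
    group
  have hS2 : ∀ y g, (∃ x h, Au op h ∧ g = L x * h) → ∃ x h, Au op h ∧ R y * g = L x * h := by
    rintro y g ⟨x, h, hh, rfl⟩
    refine ⟨op x y, (((L (op x y))⁻¹ * R (op x y)) * ((R (op x y))⁻¹ * R y * R x) *
      ((L x)⁻¹ * R x)⁻¹) * h, (((hA3 _).mul (hA2 x y)).mul (hA3 x).inv).mul hh, ?_⟩
    group
  have hS : ∀ s ∈ Set.range L ∪ Set.range R, ∀ g, (∃ x h, Au op h ∧ g = L x * h) →
      ∃ x h, Au op h ∧ s * g = L x * h := by
    rintro s (⟨y, rfl⟩ | ⟨y, rfl⟩) g hg
    · exact hS1 y g hg
    · exact hS2 y g hg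
  have hpow : ∀ s ∈ Set.range L ∪ Set.range R, ∀ n : ℕ, ∀ g, (∃ x h, Au op h ∧ g = L x * h) →
      ∃ x h, Au op h ∧ s ^ n * g = L x * h := by
    intro s hs n
    induction n with
    | zero => intro g hg; simpa using hg
    | succ n ih =>
      intro g hg
      have h4 := hS s hs _ (ih g hg)
      rwa [← mul_assoc, ← pow_succ'] at h4
  have hLe : L e = 1 := by
    ext x
    rw [hL, (he x).1]; rfl
  have hall : ∀ g ∈ Subgroup.closure (Set.range L ∪ Set.range R),
      ∃ x h, Au op h ∧ g = L x * h := by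
    intro g hg
    induction hg using Subgroup.closure_induction_left with
    | one => exact ⟨e, 1, Au.one op, by rw [hLe, one_mul]⟩
    | mul_left s hs g hg ih => exact hS s hs g ih
    | inv_mul_cancel s hs g hg ih =>
      have h5 : s⁻¹ = s ^ (orderOf s - 1) := by
        have h6 : 0 < orderOf s := orderOf_pos s
        rw [inv_eq_iff_mul_eq_one, ← pow_succ', Nat.sub_add_cancel h6, pow_orderOf_eq_one]
      rw [h5]
      exact hpow s hs _ g ih
  intro g hg hge
  obtain ⟨x, h, hh, rfl⟩ := hall g hg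
  have hhe : h e = e := by
    have h7 := hh e e
    rw [(he e).1] at h7
    have h8 : L (h e) (h e) = L (h e) e := by
      rw [hL, hL, ← h7, (he _).2]
    exact (L (h e)).injective h8
  rw [Perm.mul_apply, hhe, hL, (he x).2] at hge
  rw [hge, hLe, one_mul]
  exact hh

end Pool.Agent.H4.FT
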