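import Pool.Agent.H98.FT.Def
import Pool.Agent.H38.FT.S1

/-!
Steps (1) and (3) in the notation of `Pool.Agent.H98.FT.Def`.
-/

set_option autoImplicit false

namespace ALoop

open Equiv

variable {Q : Type*} {G : Subgroup (Perm Q)} {L : Q → Perm Q} {J : Perm Q} {e : Q}

namespace AL

theorem ft_S0 (h : AL G L J e) {x : Q} {c : Perm Q} (o : KX G L J e x c) :
    ∃ (k : Perm Q) (n : ℕ), S0 G L J e x c (pr L x c) k (sp L x c) n := by
  obtain ⟨n, hn, hcn⟩ := o.odd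
  obtain ⟨k, hk⟩ := h.exists_S0 o.Iv.1 o.mem hn hcn o.inv
  have hs : ((L x)⁻¹ * c * L x) e = sp L x c := by
    show (L x)⁻¹ (c (L x e)) = (L x)⁻¹ (c x)
    rw [h.Le]
  rw [hs] at hk
  exact ⟨k, n, hk⟩

/-- (1) -/
theorem ft_one_w (h : AL G L J e) {x : Q} {c : Perm Q} (o : KX G L J e x c) (q : Q) :
    (pr L x c * c) * (D L J q * (pr L x c * c) * D L J q) =
      (D L J q * (pr L x c * c) * D L J q) * (pr L x c * c) := by
  obtain ⟨k, n, hS⟩ := h.ft_S0 o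
  exact hS.w_comm h q

/-- (3) -/
theorem ft_k_one (h : AL G L J e) {x : Q} {c : Perm Q} (o : KX G L J e x c) :
    L (sp L x c) = pr L x c * c⁻¹ ∧ rt L J (sp L x c) = pr L x c * c := by
  obtain ⟨k, n, hS⟩ := h.ft_S0 o
  exact ⟨hS.Ls_eq h, hS.Rs_eq h⟩

end AL

end ALoop
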