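import Pool.Agent.H98.FT.Bas
import Pool.Agent.H98.FT.SixC
import Pool.Agent.H4.FT.Brd

/-!
Route S of helper93 (note 6695), steps (A) and (B): for an involution `x` and `c` in `K_x` the inner
mapping `[L_q^-1, R_x^-1]` commutes with `c` for all `q`, and `L_y^2` normalises the set `K_x` for
all involutions `y`.
-/

set_option autoImplicit false

namespace ALoop

open Equiv

variable {Q : Type*} {G : Subgroup (Perm Q)} {L : Q → Perm Q} {J : Perm Q} {e : Q}

namespace AL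

/-- (A) -/
theorem ft_A (h : AL G L J e) {x : Q} {c : Perm Q} (o : KX G L J e x c) (q : Q) :
    ((L q)⁻¹ * (rt L J x)⁻¹ * L q * rt L J x) ∈ Inn G e ∧
    ((L q)⁻¹ * (rt L J x)⁻¹ * L q * rt L J x) * c =
      c * ((L q)⁻¹ * (rt L J x)⁻¹ * L q * rt L J x) := by
  obtain ⟨hp1, hp2, hp3, hp4⟩ := h.b_pr o
  obtain ⟨hc1, hc2, hc3, hc4⟩ := h.b_cx o
  obtain ⟨hs1, hs2, hs3, hs4, hs5, hs6⟩ := h.b_sp o
  obtain ⟨hz1, hz2, hz3, hz4, hz5, hz6, hz7⟩ := h.b_zz o.Iv
  obtain ⟨hk1, hk2⟩ := h.ft_k_one o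
  have hw := h.ft_one_w o q
  have hcJ : c * J = J * c := h.comJ c o.mem.1 o.mem.2
  have hJJ := h.JJ1
  have hXG : rt L J x ∈ G := h.memR x
  have hR : ∀ r, D L J (L q r) = rt L J r * D L J q * (rt L J r)⁻¹ := by
    intro r
    rw [show L q r = (rt L J r) q from (h.R_apply q r).symm]
    exact (h.D_conj (h.memR r) q).symm
  have hL : ∀ r, D L J (L q r) = L q * D L J r * (L q)⁻¹ := fun r =>
    (h.D_conj (h.memL q) r).symm
  have hDD := h.D_sq q
  have hDx := h.D_sq x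
  obtain ⟨n, hn, hcn⟩ := o.odd
  generalize hwdef : pr L x c * c = w at *
  generalize hX : rt L J x = X at *
  generalize hDq : D L J q = E at *
  generalize hp : pr L x c = p at *
  -- `L q c^2 (L q)^-1`
  have e1 : L q * (c * c) * (L q)⁻¹ = X * (w⁻¹ * (E * w * E)) * X⁻¹ := by
    have a1 : L q * (c * c * D L J x) * (L q)⁻¹ = X * w⁻¹ * E * (X * w⁻¹)⁻¹ := by
      rw [← hc2, ← hL, hR, hc4]
    have a2 : L q * D L J x * (L q)⁻¹ = X * E * X⁻¹ := by
      rw [← hL, hR, hX]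
    calc L q * (c * c) * (L q)⁻¹ = L q * (c * c * (D L J x * D L J x)) * (L q)⁻¹ := by
          rw [hDx, mul_one]
      _ = (L q * (c * c * D L J x) * (L q)⁻¹) * (L q * D L J x * (L q)⁻¹) := by group
      _ = (X * w⁻¹ * E * (X * w⁻¹)⁻¹) * (X * E * X⁻¹) := by rw [a1, a2]
      _ = X * (w⁻¹ * (E * w * E)) * X⁻¹ := by group
  -- `L q p^2 (L q)^-1`
  have e2 : L q * (p * p) * (L q)⁻¹ = w * E * w⁻¹ * E := by
    have a1 : L q * (p * p * J) * (L q)⁻¹ = w * E * w⁻¹ := by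
      rw [← hs1, ← hL, hR, hk2]
    have a2 : L q * J * (L q)⁻¹ = E := hDq
    calc L q * (p * p) * (L q)⁻¹ = L q * (p * p * (J * J)) * (L q)⁻¹ := by rw [hJJ, mul_one]
      _ = (L q * (p * p * J) * (L q)⁻¹) * (L q * J * (L q)⁻¹) := by group
      _ = w * E * w⁻¹ * E := by rw [a1, a2]
  have hEi : E⁻¹ = E := inv_eq_of_mul_eq_one_left hDD
  have e3 : w⁻¹ * (E * w * E) = (L q * (p * p) * (L q)⁻¹)⁻¹ := by
    rw [e2]
    apply eq_inv_of_mul_eq_one_left
    calc w⁻¹ * (E * w * E) * (w * E * w⁻¹ * E) = w⁻¹ * ((E * w * E) * w) * E * w⁻¹ * E := by group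
      _ = w⁻¹ * (w * (E * w * E)) * E * w⁻¹ * E := by rw [hw]
      _ = E * w * (E * E) * w⁻¹ * E := by group
      _ = E * w * 1 * w⁻¹ * E := by rw [hDD]
      _ = E * E := by group
      _ = 1 := hDD
  have e4 : X * (p * p)⁻¹ * X⁻¹ = c * c := by
    have hpi : J * p⁻¹ * J = p := by
      have := h.Jmulinv p
      rw [hp3] at this
      rw [← this, inv_inv]
    have hpc : L x * p = c * L x := by
      rw [← hp]; unfold pr; group
    have hJi := h.Jinv
    have hJcJ : J * (c * c) * J = c * c := by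
      calc J * (c * c) * J = (J * c) * (c * J) := by group
        _ = (c * J) * (J * c) := by rw [hcJ]
        _ = c * (J * J) * c := by group
        _ = c * c := by rw [hJJ, mul_one]
    have e5 : J * (p * p)⁻¹ * J = p * p := by
      calc J * (p * p)⁻¹ * J = J * p⁻¹ * 1 * p⁻¹ * J := by group
        _ = J * p⁻¹ * (J * J) * p⁻¹ * J := by rw [hJJ]
        _ = (J * p⁻¹ * J) * (J * p⁻¹ * J) := by group
        _ = p * p := by rw [hpi]
    have hpp : L x * p * p * (L x)⁻¹ = c * c := by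
      calc L x * p * p * (L x)⁻¹ = c * L x * p * (L x)⁻¹ := by rw [hpc]
        _ = c * (L x * p) * (L x)⁻¹ := by group
        _ = c * (c * L x) * (L x)⁻¹ := by rw [hpc]
        _ = c * c := by group
    calc X * (p * p)⁻¹ * X⁻¹ = (J * L x * J) * (p * p)⁻¹ * (J * L x * J)⁻¹ := by rw [hz6]
      _ = J * L x * (J * (p * p)⁻¹ * J⁻¹) * (L x)⁻¹ * J⁻¹ := by group
      _ = J * L x * (J * (p * p)⁻¹ * J) * (L x)⁻¹ * J := by rw [hJi]
      _ = J * (L x * p * p * (L x)⁻¹) * J := by rw [e5]; group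
      _ = J * (c * c) * J := by rw [hpp]
      _ = c * c := hJcJ
  set t := (L q)⁻¹ * X⁻¹ * L q * X with ht
  have htG : t ∈ G := G.mul_mem (G.mul_mem (G.mul_mem (G.inv_mem (h.memL q)) (G.inv_mem hXG))
    (h.memL q)) hXG
  have hte : t e = e := by
    have x1 : X e = x := by
      rw [← hX]
      have := h.R_apply e x
      rw [h.Le1] at this
      exact this
    have x2 : L q x = X q := by
      rw [← hX]; exact (h.R_apply q x).symm
    show (L q)⁻¹ (X⁻¹ (L q (X e))) = e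
    rw [x1, x2, inv_apply', Perm.inv_eq_iff_eq]
    exact (h.Le q).symm
  have htI : t ∈ Inn G e := ⟨htG, hte⟩
  refine ⟨htI, ?_⟩
  have htJ : t * J = J * t := h.comJ t htG hte
  have e6 : t * (p * p)⁻¹ * t⁻¹ = (p * p)⁻¹ := by
    calc t * (p * p)⁻¹ * t⁻¹
        = (L q)⁻¹ * X⁻¹ * L q * (X * (p * p)⁻¹ * X⁻¹) * (L q)⁻¹ * X * L q := by
          rw [ht]; group
      _ = (L q)⁻¹ * X⁻¹ * (L q * (c * c) * (L q)⁻¹) * X * L q := by rw [e4]; group
      _ = (L q)⁻¹ * X⁻¹ * (X * (L q * (p * p) * (L q)⁻¹)⁻¹ * X⁻¹) * X * L q := by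
          rw [e1, e3]
      _ = (p * p)⁻¹ := by group
  have e7 : p * p * t = t * (p * p) := by
    have : t * (p * p)⁻¹ = (p * p)⁻¹ * t := by
      calc t * (p * p)⁻¹ = t * (p * p)⁻¹ * t⁻¹ * t := by group
        _ = (p * p)⁻¹ * t := by rw [e6]
    calc p * p * t = p * p * (t * (p * p)⁻¹) * (p * p) := by group
      _ = p * p * ((p * p)⁻¹ * t) * (p * p) := by rw [this]
      _ = t * (p * p) := by group
  have hpn : p ^ n = 1 := by
    have h1 : p = (L x)⁻¹ * c * ((L x)⁻¹)⁻¹ := by rw [← hp]; unfold pr; group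
    rw [h1, conj_pow, hcn]; group
  have e8 : p * t = t * p := comm_of_sq hn hpn e7
  -- `t` fixes `s`
  have hts : t (sp L x c) = sp L x c := by
    rw [← h.D_cent htG, hs1]
    calc t * (p * p * J) = (t * (p * p)) * J := by group
      _ = p * p * (t * J) := by rw [← e7]; group
      _ = p * p * J * t := by rw [htJ]; group
  have e9 := h.comL htG hte hts
  rw [hk1] at e9
  -- `t (p c⁻¹) = (p c⁻¹) t`
  have e10 : t * c⁻¹ = c⁻¹ * t := by
    calc t * c⁻¹ = p⁻¹ * (p * t) * c⁻¹ := by group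
      _ = p⁻¹ * (t * (p * c⁻¹)) := by rw [e8]; group
      _ = p⁻¹ * (p * c⁻¹ * t) := by rw [e9]
      _ = c⁻¹ * t := by group
  calc t * c = c * (c⁻¹ * t) * c := by group
    _ = c * (t * c⁻¹) * c := by rw [e10]
    _ = c * t := by group

/-- `K_x` is closed under conjugation by the inner mappings which fix `x` -/
theorem ft_KX_conj (h : AL G L J e) {x : Q} {c m : Perm Q} (o : KX G L J e x c) (hm : m ∈ Inn G e)
    (hmx : m x = x) : KX G L J e x (m * c * m⁻¹) := by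
  obtain ⟨n, hn, hcn⟩ := o.odd
  refine ⟨o.Iv, (Inn G e).mul_mem ((Inn G e).mul_mem hm o.mem) ((Inn G e).inv_mem hm),
    ⟨n, hn, ?_⟩, ?_⟩
  · rw [conj_pow, hcn]; group
  · have h1 : m * D L J x = D L J x * m := (h.D_cent hm.1 x).2 hmx
    have h2 : m⁻¹ * D L J x = D L J x * m⁻¹ := by
      calc m⁻¹ * D L J x = m⁻¹ * (D L J x * m) * m⁻¹ := by group
        _ = m⁻¹ * (m * D L J x) * m⁻¹ := by rw [h1]
        _ = D L J x * m⁻¹ := by group
    calc D L J x * (m * c * m⁻¹) * D L J x = (D L J x * m) * c * (m⁻¹ * D L J x) := by group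
      _ = (m * D L J x) * c * (D L J x * m⁻¹) := by rw [h1, h2]
      _ = m * (D L J x * c * D L J x) * m⁻¹ := by group
      _ = m * c⁻¹ * m⁻¹ := by rw [o.inv]
      _ = (m * c * m⁻¹)⁻¹ := by group

/-- (B) -/
theorem ft_B (h : AL G L J e) {x : Q} {c : Perm Q} (o : KX G L J e x c) {y : Q}
    (hy : Iv J e y) :
    KX G L J e x (L y * L y * c * (L y * L y)⁻¹) ∧
    KX G L J e x ((L y * L y)⁻¹ * c * (L y * L y)) := by
  obtain ⟨hkI, hkx, hky⟩ := h.six_k o.Iv hy
  have hXG : rt L J x ∈ G := h.memR x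
  have x1 : rt L J x e = x := by
    have := h.R_apply e x
    rw [h.Le1] at this
    exact this
  have x2 : rt L J x x = e := by
    have h1 : rt L J x x = L x x := h.R_apply x x
    have h2 := h.LJ x
    rw [o.Iv.1] at h2
    rw [h1, h2]
  set X := rt L J x with hX
  have hXX : X * X ∈ Inn G e := by
    refine ⟨G.mul_mem hXG hXG, ?_⟩
    show X (X e) = e
    rw [x1, x2]
  have hXx : (X * X) x = x := by
    show X (X x) = x
    rw [x2, x1]
  set m := kk L J y x * (X * X) with hm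
  have hmI : m ∈ Inn G e := (Inn G e).mul_mem hkI hXX
  have hmx : m x = x := by
    show kk L J y x ((X * X) x) = x
    rw [hXx, hkx]
  have hmi : m⁻¹ x = x := by
    rw [Perm.inv_eq_iff_eq]; exact hmx.symm
  set t := (L y)⁻¹ * X⁻¹ * L y * X with ht
  have hly : L y * L y = m * t⁻¹ := by
    rw [hm, ht]
    unfold kk
    rw [← hX]
    group
  constructor
  · have h1 := (h.ft_A o y).2
    have h2 : L y * L y * c * (L y * L y)⁻¹ = m * c * m⁻¹ := by
      have h3 : t⁻¹ * c = c * t⁻¹ := by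
        calc t⁻¹ * c = t⁻¹ * (c * t) * t⁻¹ := by group
          _ = t⁻¹ * (t * c) * t⁻¹ := by rw [h1]
          _ = c * t⁻¹ := by group
      rw [hly]
      calc m * t⁻¹ * c * (m * t⁻¹)⁻¹ = m * (t⁻¹ * c) * t * m⁻¹ := by group
        _ = m * (c * t⁻¹) * t * m⁻¹ := by rw [h3]
        _ = m * c * m⁻¹ := by group
    rw [h2]
    exact h.ft_KX_conj o hmI hmx
  · have o2 := h.ft_KX_conj o ((Inn G e).inv_mem hmI) hmi
    rw [inv_inv] at o2
    have h1 := (h.ft_A o2 y).2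
    have h2 : (L y * L y)⁻¹ * c * (L y * L y) = m⁻¹ * c * m := by
      rw [hly]
      calc (m * t⁻¹)⁻¹ * c * (m * t⁻¹) = t * (m⁻¹ * c * m) * t⁻¹ := by group
        _ = (m⁻¹ * c * m) * t * t⁻¹ := by rw [h1]
        _ = m⁻¹ * c * m := by group
    rw [h2]
    exact o2

end AL

end ALoop
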