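import Pool.Agent.H4.FT.AB
import Pool.Agent.H61.FT.Core
import Pool.Agent.H81.LO.S5
import Pool.Agent.H86.UN.Eight

/-!
A finite simple automorphic loop of even order in which `y y ≠ e` for some `y` is associative
(Route S: note 6695 of helper93, with (0)-(5) of helper98's note 6641 and (6) of note 6669).
-/

set_option autoImplicit false

namespace ALoop

open Equiv

variable {Q : Type*} {G : Subgroup (Perm Q)} {L : Q → Perm Q} {J : Perm Q} {e : Q}

namespace AL

/-- `L_y ^ 2` fixes `e` and so is an inner mapping, for an involution `y` -/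
theorem sq_Inn (h : AL G L J e) {y : Q} (hJy : J y = y) : L y * L y ∈ Inn G e := by
  refine ⟨G.mul_mem (h.memL y) (h.memL y), ?_⟩
  show L y (L y e) = e
  have h2 := h.LJ y
  rw [hJy] at h2
  rw [h.Le, h2]

/-- (C)-(D): `L_y ^ 2 = 1` for all involutions `y` -/
theorem sq_one [Finite Q] (h : AL G L J e) (hcardQ : 2 ∣ Nat.card Q) {y : Q} (hJy : J y = y)
    (hye : y ≠ e) : L y * L y = 1 := by
  classical
  -- the normal subgroup generated by the squares
  set S : Set (Inn G e) := {g | ∃ w, J w = w ∧ w ≠ e ∧ (g : Perm Q) = L w * L w} with hS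
  have hSc : ∀ g : Inn G e, ∀ s ∈ S, g * s * g⁻¹ ∈ S := by
    rintro g s ⟨w, hJw, hwe, hw⟩
    have hc := h.comJ g.1 g.2.1 g.2.2
    refine ⟨(g : Perm Q) w, ?_, ?_, ?_⟩
    · rw [← Perm.mul_apply, ← hc, Perm.mul_apply, hJw]
    · intro h1
      apply hwe
      apply (g : Perm Q).injective
      rw [h1]; exact g.2.2.symm
    · have h1 := h.equi g.1 g.2.1 g.2.2 w
      show (g : Perm Q) * (s : Perm Q) * (g : Perm Q)⁻¹ = _
      rw [hw, ← h1]
      group
  have hN : (Subgroup.closure S).Normal := by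
    constructor
    intro n hn g
    induction hn using Subgroup.closure_induction with
    | mem s hs => exact Subgroup.subset_closure (hSc g s hs)
    | one => simp
    | mul a b _ _ ha hb =>
      have e1 : g * (a * b) * g⁻¹ = (g * a * g⁻¹) * (g * b * g⁻¹) := by group
      rw [e1]; exact mul_mem ha hb
    | inv a _ ha =>
      have e1 : g * a⁻¹ * g⁻¹ = (g * a * g⁻¹)⁻¹ := by group
      rw [e1]; exact inv_mem ha
  obtain ⟨hz1, hz2, hz3, hz4, hz5, hz6, hz7⟩ := h.b_zz (x := y) ⟨hJy, hye⟩
  set z : Inn G e := ⟨zz L J y, hz3⟩ with hz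
  have hzz : z * z = 1 := Subtype.ext hz4
  have hzne : z ≠ 1 := by
    intro h1
    have h2 : zz L J y = 1 := congrArg Subtype.val h1
    apply hye
    apply h.D_inj
    rw [h.D_e]
    have h3 : D L J y * J = 1 := h2
    calc D L J y = D L J y * J * J⁻¹ := by group
      _ = J⁻¹ := by rw [h3, one_mul]
      _ = J := h.Jinv
  have hJJ := h.JJ1
  have hzD : ∀ b : Inn G e, z * b * z = b⁻¹ ↔
      D L J y * (b : Perm Q) * D L J y = (b : Perm Q)⁻¹ := by
    intro b
    have hbJ := h.comJ b.1 b.2.1 b.2.2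
    have h1 : zz L J y * (b : Perm Q) * zz L J y = D L J y * (b : Perm Q) * D L J y := by
      have hz7' : D L J y * J * J = J * (D L J y * J) := hz7
      have h2 : J * (D L J y * J) = D L J y := by
        rw [← hz7', mul_assoc, hJJ, mul_one]
      calc zz L J y * (b : Perm Q) * zz L J y = D L J y * (J * (b : Perm Q)) * (D L J y * J) := by
            unfold zz; group
        _ = D L J y * ((b : Perm Q) * J) * (D L J y * J) := by rw [hbJ]
        _ = D L J y * (b : Perm Q) * (J * (D L J y * J)) := by group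
        _ = D L J y * (b : Perm Q) * D L J y := by rw [h2]
    rw [← h1]
    constructor
    · intro h3; exact congrArg Subtype.val h3
    · intro h3; exact Subtype.ext h3
  have hstab : ∀ n ∈ Subgroup.closure S, ∀ b : Inn G e, Odd (orderOf b) → z * b * z = b⁻¹ →
      (z * (n⁻¹ * b * n) * z = (n⁻¹ * b * n)⁻¹ ∧ z * (n * b * n⁻¹) * z = (n * b * n⁻¹)⁻¹) := by
    have hKX : ∀ b : Inn G e, Odd (orderOf b) → z * b * z = b⁻¹ → KX G L J e y (b : Perm Q) := by
      intro b hb hzb
      refine ⟨⟨hJy, hye⟩, b.2, ⟨orderOf b, hb, ?_⟩, (hzD b).1 hzb⟩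
      have h1 : ((b ^ orderOf b : Inn G e) : Perm Q) = ((1 : Inn G e) : Perm Q) :=
        congrArg Subtype.val (pow_orderOf_eq_one b)
      exact h1
    have hord : ∀ b g : Inn G e, Odd (orderOf b) → Odd (orderOf (g * b * g⁻¹)) := by
      intro b g hb
      have : orderOf (g * b * g⁻¹) = orderOf b := by
        have := MulAut.conj_apply g b
        rw [← this]
        exact (MulEquiv.orderOf_eq (MulAut.conj g) b)
      rw [this]; exact hb
    intro n hn
    induction hn using Subgroup.closure_induction with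
    | mem s hs =>
      obtain ⟨w, hJw, hwe, hw⟩ := hs
      intro b hb hzb
      obtain ⟨h1, h2⟩ := h.ft_B (hKX b hb hzb) (y := w) ⟨hJw, hwe⟩
      constructor
      · rw [hzD]
        show D L J y * ((s : Perm Q)⁻¹ * (b : Perm Q) * (s : Perm Q)) * D L J y =
          ((s : Perm Q)⁻¹ * (b : Perm Q) * (s : Perm Q))⁻¹
        rw [hw]; exact h2.inv
      · rw [hzD]
        show D L J y * ((s : Perm Q) * (b : Perm Q) * (s : Perm Q)⁻¹) * D L J y =
          ((s : Perm Q) * (b : Perm Q) * (s : Perm Q)⁻¹)⁻¹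
        rw [hw]; exact h1.inv
    | one => intro b _ hzb; simpa using hzb
    | mul a c _ _ ha hc =>
      intro b hb hzb
      constructor
      · have h1 := (ha b hb hzb).1
        have h2 := hord b a⁻¹ hb
        rw [inv_inv] at h2
        have h3 := (hc _ h2 h1).1
        have e1 : (a * c)⁻¹ * b * (a * c) = c⁻¹ * (a⁻¹ * b * a) * c := by group
        rw [e1]; exact h3
      · have h1 := (hc b hb hzb).2
        have h2 := hord b c hb
        have h3 := (ha _ h2 h1).2
        have e1 : (a * c) * b * (a * c)⁻¹ = a * (c * b * c⁻¹) * a⁻¹ := by group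
        rw [e1]; exact h3
    | inv a _ ha =>
      intro b hb hzb
      rw [inv_inv]
      exact ⟨(ha b hb hzb).2, (ha b hb hzb).1⟩
  have hbot := Pool.Agent.H61.FT.core (M := Inn G e)
    (fun A hA hs => h.no_solvable hcardQ A hA hs)
    (fun A B hA hB hc => h.commuting_normal' hcardQ A B hA hB hc)
    (Subgroup.closure S) hN hzz hzne (fun n hn b hb hzb => (hstab n hn b hb hzb).1)
  have h1 : (⟨L y * L y, h.sq_Inn hJy⟩ : Inn G e) ∈ Subgroup.closure S :=
    Subgroup.subset_closure ⟨y, hJy, hye, rfl⟩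
  rw [hbot, Subgroup.mem_bot] at h1
  exact congrArg Subtype.val h1

/-- THE THEOREM -/
theorem assoc [Finite Q] (h : AL G L J e) (hcardQ : 2 ∣ Nat.card Q) : Assoc L := by
  refine h.five hcardQ (fun y hJy hye => h.sq_one hcardQ hJy hye) ?_
  intro x hJx c hc n hn hcn hzc
  obtain ⟨k, hS⟩ := h.exists_S0 hJx hc hn hcn hzc
  refine ⟨hS.Ls_eq h, hS.Rs_eq h, fun q => ?_⟩
  obtain ⟨f, hfG, hfe, -, hfn, hf1, -⟩ := hS.four h q
  exact ⟨f, ⟨hfG, hfe⟩, hfn, hf1⟩

end AL

end ALoop
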